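import Pool.Agent.TH270.CB.Law

/-!
# Central values of abelian Artin `L`-functions, the Riemann hypothesis and Chebyshev's bias

The Artin `L`-functions of the `q`-th cyclotomic field are the Dirichlet `L`-functions of the characters
modulo `q` (up to the Euler factors at the primes dividing `q`, which have no zeros with `Re s > 0`). Statement 2
of the problem says for them `L(1/2, χ) ≠ 0` for all `χ ≠ χ_0`. For a residue class `a` prime to `q` let

`π_{1/2}(n; q, a) = ∑_{p ≤ n, p ≡ a (mod q)} 1/√p`, `R(a) = #{y mod q : y² ≡ a}`.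

Aoki and Koyama (2023) formulated Chebyshev's bias as the asymptotic law
`π_{1/2}(n; q, a) - π_{1/2}(n; q, b) = κ log log n + c + o(1)`, `κ = (R(b) - R(a)) / (2 φ(q))`. For all `a`, `b`
it is equivalent to the deep Riemann hypothesis (the convergence of the Euler products of the `L(s, χ)`,
`χ ≠ χ_0`, at `s = 1/2`; Conrad 2005), and Sheth derived it from the Riemann hypothesis and `L(1/2, χ) ≠ 0` outside a
set of `n` of finite logarithmic measure. It is shown that, read in logarithmic mean, Chebyshev's bias is
EQUIVALENT to the Riemann hypothesis together with statement 2: for every `q ≥ 1` the following are equivalent: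

* (1) for all Dirichlet characters `χ ≠ χ_0` modulo `q`: `L(s, χ) ≠ 0` for `Re s > 1/2`, and `L(1/2, χ) ≠ 0`;
* (2) for all `a, b` there is `B` with
  `∑_{2 ≤ n ≤ M} |π_{1/2}(n; q, a) - π_{1/2}(n; q, b) - κ log log n| / n ≤ B log M` for all large `M`;
* (3) for all `a, b` there is `c` with
  `∑_n (π_{1/2}(n; q, a) - π_{1/2}(n; q, b) - κ log log n - c)² / n < ∞`.

Proof. The logarithm of the partial Euler product over the prime powers `≤ n` at `s = 1/2` differs from
`∑_{p ≤ n} χ(p)/√p + [χ² = χ_0] (log log n)/2` by a sequence with a limit, with square summable difference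
(the theorem of Mertens with error term if `χ² = χ_0`; the mean square law at `s = 1` for `L(s, χ²)` if
`χ² ≠ χ_0`). Under (1) its distance to `log L(1/2, χ)` is square integrable with respect to `dx/x` (Plancherel
for the Laplace transform `log L(1/2 + s, χ) / s` on the lines `Re s = σ > 0`, local bounds near the zeros on
the line); conversely a bound for the first logarithmic moment makes the Laplace transform of the partial
sums converge for `Re s > 0`, with the growth of a simple pole at most. The races are combinations of the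
character sums with the weights of the orthogonality relations.
-/

set_option autoImplicit false

namespace Pool.Agent.Results.MP_347b49_nt.ChebyshevBias

open Filter Topology

/-- `π_{1/2}(n; q, a)`: the sum of `1/√p` over the primes `p ≤ n`, `p ≡ a (mod q)`. -/
noncomputable def race {q : ℕ} (a : ZMod q) (n : ℕ) : ℝ :=
  ∑ p ∈ (Finset.range (n + 1)).filter (fun p : ℕ => p.Prime ∧ (p : ZMod q) = a), 1 / √(p : ℝ)

/-- `R(a)`: the number of square roots of `a` modulo `q`. -/
noncomputable def roots {q : ℕ} (a : (ZMod q)ˣ) : ℕ := Nat.card {y : (ZMod q)ˣ // y ^ 2 = a}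

/-- `π_{1/2}(n; q, a) - π_{1/2}(n; q, b) - κ log log n`, `κ = (R(b) - R(a)) / (2 φ(q))`. -/
noncomputable def bias {q : ℕ} (a b : (ZMod q)ˣ) (n : ℕ) : ℝ :=
  race (a : ZMod q) n - race (b : ZMod q) n -
    ((roots b : ℝ) - roots a) / (2 * q.totient) * Real.log (Real.log n)

/-- **Chebyshev's bias in logarithmic mean.** -/
theorem result (q : ℕ) [NeZero q] : List.TFAE [
    ∀ χ : DirichletCharacter ℂ q, χ ≠ 1 →
      (∀ s : ℂ, 1 / 2 < s.re → DirichletCharacter.LFunction χ s ≠ 0) ∧
      DirichletCharacter.LFunction χ (1 / 2) ≠ 0,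
    ∀ a b : (ZMod q)ˣ, ∃ B : ℝ, ∀ᶠ M : ℕ in atTop,
      ∑ n ∈ Finset.Icc 2 M, |bias a b n| / n ≤ B * Real.log M,
    ∀ a b : (ZMod q)ˣ, ∃ c : ℝ, Summable fun n : ℕ => (bias a b n - c) ^ 2 / n] :=
  Pool.Agent.TH270.CB.main

end Pool.Agent.Results.MP_347b49_nt.ChebyshevBias
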