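import Pool.Agent.TH936.AG.FinalE

/-!
# Central values of orthogonal dihedral Artin L-functions: ring class characters

`R` is the ring of integers of an imaginary quadratic field `K` of class number one.  For a prime number
`q` let `K[q]` be the ring class field of conductor `q`; the nontrivial characters of `Gal(K[q] / K)`
are the ring class characters `χ` of conductor `q`: the primitive ray class characters of conductor
`(q)` that are trivial on the rational integers prime to `q`.  `Gal(K[q] / ℚ)` is a dihedral group, and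
for a character `χ` of order `≥ 3` the representation of `Gal(K[q] / ℚ)` induced from `χ` is irreducible
and orthogonal, with Artin `L`-function `L(χ, s)`.

The theorem: for every `ε > 0`, every sufficiently large prime number `q` and EVERY ring class
character `χ` of conductor `q` and order `d ≥ q ^ (2/3 + ε)` one has `|L(χ ^ a, 1/2)| ≥ q ^ (-1/17)`
for at least `d ^ 2 q ^ (-9/8)` of the Galois conjugates `χ ^ a` (`Gal(K[q] / K)` is cyclic of order
`2 (q ± 1) / |Rˣ|`); the same holds for the `a ≡ 1 mod M`, `M ∣ d` bounded.  For `d ≥ q ^ (1 - δ)`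
these are at least `q ^ (7/8 - 2 δ)` of the at most `q + 1` characters `χ ^ a`.

The results `DihedralCentralValues` and `ManyGaloisConjugates` for this problem concern ray class
characters of conductor `c` and order `≥ N(c) ^ (2/3 + ε)`.  For ring class characters `c = (q)`,
`N(c) = q ^ 2`, while the order is at most `q + 1`, so they never apply.

The approach (projects AC, AD, AE, AG): the average over the `a` of the product of `L(χ ^ a, 1/2)` with
a mollifier.  As `χ` is trivial on the rational integers, every ideal prime to the ramified prime ideal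
is written as `(k) c` with `c` prime to its conjugate (the Euler factor at the ramified prime ideal is
put into the weight function); the sum over the `k` is a harmonic sum and produces a main term of the
size of `log q` times the mollified constant; the multiplicative relations between the `c` of norm
`≤ q ^ (6/5)` are controlled by counting elements of `R` on lines modulo `q` and a power trick; the
mollifier is the product over the split primes `p ≤ (log q) ^ 200`.  The number of the large values
follows from this average and the mean square: `∑ |L(χ ^ a, 1/2)| ^ 2 ≤ C q ^ (1 + ε)`, the sum over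
all `a`, which is proved for every ring class character `χ` of conductor `q`, again by counting the
pairs of ideals with the same value of all `χ ^ a` on lines modulo `q`.
-/

set_option autoImplicit false

open Complex

namespace Pool.Agent.Results.MP_347b49_nt.RingClassCharacters

/-- The norm `N(I)` of an ideal (`0` for the zero ideal, whose residue ring is infinite). -/
noncomputable def norm {R : Subring ℂ} (I : Ideal R) : ℝ := (Nat.card (R ⧸ I) : ℝ)

/-- `ψ`, a function on the ideals of `R`, is a primitive ray class character of conductor `f`: it is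
multiplicative, vanishes exactly at the zero ideal and the ideals not prime to `f`, satisfies
`ψ((α)) = 1` for `α ≡ 1 mod f`, and this fails for every strictly larger ideal `f'` in place of
`f`. -/
structure IsRay {R : Subring ℂ} (f : Ideal R) (ψ : Ideal R → ℂ) : Prop where
  ne_bot : f ≠ ⊥
  mul : ∀ I J : Ideal R, ψ (I * J) = ψ I * ψ J
  eq_zero : ∀ I : Ideal R, ψ I = 0 ↔ (I = ⊥ ∨ ¬ IsCoprime I f)
  principal : ∀ α : R, α ≠ 0 → α - 1 ∈ f → ψ (Ideal.span {α}) = 1
  primitive : ∀ f' : Ideal R, f < f' → ∃ α : R, α ≠ 0 ∧ α - 1 ∈ f' ∧ IsCoprime (Ideal.span {α}) f ∧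
    ψ (Ideal.span {α}) ≠ 1

/-- `χ` is a (primitive) ring class character of conductor the prime number `q`: a primitive ray class
character of conductor `(q)` that is trivial on the rational integers prime to `q`. -/
structure IsRingClass {R : Subring ℂ} (q : ℕ) (χ : Ideal R → ℂ) : Prop where
  prime : q.Prime
  ray : IsRay (Ideal.span {(q : R)}) χ
  int : ∀ m : ℕ, Nat.Coprime m q → χ (Ideal.span {(m : R)}) = 1

/-- `q` is not ramified in `R`: `(q)` is not the square of a prime ideal -/
def Unramified (R : Subring ℂ) (q : ℕ) : Prop :=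
  ∀ P : Ideal R, P.IsPrime → P * P ≠ Ideal.span {(q : R)}

/-- `d` is the order of the character `χ`. -/
structure IsOrder {R : Subring ℂ} (χ : Ideal R → ℂ) (d : ℕ) : Prop where
  pos : 0 < d
  pow : ∀ I : Ideal R, χ I ≠ 0 → χ I ^ d = 1
  least : ∀ n : ℕ, 0 < n → (∀ I : Ideal R, χ I ≠ 0 → χ I ^ n = 1) → d ≤ n

/-- `F` is entire and `F(s) = ∑ χ(I) N(I)^(-s)` for `Re s > 1`. -/
structure IsLFunction {R : Subring ℂ} (χ : Ideal R → ℂ) (F : ℂ → ℂ) : Prop where
  entire : Differentiable ℂ F
  series : ∀ s : ℂ, 1 < s.re → HasSum (fun I : Ideal R => χ I * (norm I : ℂ) ^ (-s)) (F s)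

open Classical in
/-- the power `χ ^ a` of a character: `χ(I) ^ a` if `χ(I) ≠ 0` and `0` otherwise; for `a` prime to the
order of `χ` these are the Galois conjugates of `χ` -/
noncomputable def power {R : Subring ℂ} (χ : Ideal R → ℂ) (a : ℕ) : Ideal R → ℂ :=
  fun I => if χ I = 0 then 0 else χ I ^ a

/-- the exponents `a` modulo the order `d` of `χ`, prime to `d` and congruent to `1` modulo `M`, for
which the value of `L (χ ^ a)` at `1/2` has absolute value at least `t` -/
def large {R : Subring ℂ} (L : (Ideal R → ℂ) → ℂ → ℂ) (t : ℝ) (χ : Ideal R → ℂ) (d M : ℕ) : Set ℕ :=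
  {a : ℕ | a < d ∧ Nat.Coprime a d ∧ a ≡ 1 [MOD M] ∧ t ≤ ‖L (power χ a) (1 / 2)‖}

theorem isRay_iff {R : Subring ℂ} (f : Ideal R) (ψ : Ideal R → ℂ) :
    IsRay f ψ ↔ Pool.Agent.W192.HK.HC 0 f ψ :=
  ⟨fun h => ⟨h.ne_bot, h.mul, h.eq_zero, fun α h0 h1 => by rw [pow_zero]; exact h.principal α h0 h1,
      fun f' hf' => by
        obtain ⟨α, h0, h1, h2, h3⟩ := h.primitive f' hf'
        exact ⟨α, h0, h1, h2, by rw [pow_zero]; exact h3⟩⟩,
    fun h => ⟨h.ne, h.mul, h.zero, fun α h0 h1 => by
        have := h.princ α h0 h1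
        rwa [pow_zero] at this,
      fun f' hf' => by
        obtain ⟨α, h0, h1, h2, h3⟩ := h.prim f' hf'
        rw [pow_zero] at h3
        exact ⟨α, h0, h1, h2, h3⟩⟩⟩

open Pool.Agent.W192.HK Pool.Agent.TH936.AC in
theorem isRingClass_iff {R : Subring ℂ} (q : ℕ) (χ : Ideal R → ℂ) :
    IsRingClass q χ ↔ HC 0 (sp (q : R)) χ ∧ RG q χ := by
  constructor
  · intro h
    have h1 : HC 0 (sp (q : R)) χ := (isRay_iff _ _).1 h.ray
    exact ⟨h1, ⟨h.prime, h1.rc, h.int⟩⟩
  · rintro ⟨h1, h2⟩
    exact ⟨h2.prime, (isRay_iff _ _).2 h1, h2.int⟩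

/-- **Main theorem.** Let `R = ℤ + ℤ ω` be a subring of `ℂ` that is a lattice and a principal ideal
domain.  There are functions `L χ` such that for every ring class character `χ` of unramified prime
conductor `q` the function `L χ` is `L(χ, s)`; if `a` is prime to the order of `χ` then `χ ^ a` is
again a ring class character of conductor `q`.  For every `ε > 0` and `M ≥ 1` there is `q₀` such that
for every ring class character `χ` of conductor `q ≥ q₀` the prime `q` is unramified and, if the order
`d` of `χ` is `≥ q ^ (2/3 + ε)`, then for every divisor `M' ≤ M` of `d` there are at least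
`d ^ 2 q ^ (-9/8)` numbers `a < d` prime to `d`, `a ≡ 1 mod M'`, with
`|L (χ ^ a) (1/2)| ≥ q ^ (-1/17)`. -/
theorem result (R : Subring ℂ) (ω : ℂ) (hω : 0 < ω.im)
    (hR : ∀ z : ℂ, z ∈ R ↔ ∃ x y : ℤ, z = x + y * ω) (hpid : IsPrincipalIdealRing R) :
    ∃ L : (Ideal R → ℂ) → ℂ → ℂ,
      (∀ (q : ℕ) (χ : Ideal R → ℂ), IsRingClass q χ →
        (Unramified R q → IsLFunction χ (L χ)) ∧
        ∀ d : ℕ, IsOrder χ d → ∀ a : ℕ, Nat.Coprime a d → IsRingClass q (power χ a)) ∧
      ∀ ε : ℝ, 0 < ε → ∀ M : ℕ, 1 ≤ M → ∃ q₀ : ℝ, ∀ (q : ℕ) (χ : Ideal R → ℂ), IsRingClass q χ →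
        q₀ ≤ q → Unramified R q ∧ ∀ d : ℕ, IsOrder χ d → (q : ℝ) ^ (2 / 3 + ε) ≤ d →
        ∀ M' : ℕ, 1 ≤ M' → M' ≤ M → M' ∣ d →
          (d : ℝ) ^ 2 * (q : ℝ) ^ (-9 / 8 : ℝ) ≤
            ((large L ((q : ℝ) ^ (-1 / 17 : ℝ)) χ d M').ncard : ℝ) := by
  have hpw := Pool.Agent.W283.HK.PW.h_pw Pool.Agent.W287.HK.h_basic
  have hQ : Pool.Agent.TH936.AC.QP R ω := ⟨⟨hω, hR, inferInstance⟩, hpid⟩
  obtain ⟨p, P, hP, L, hL, -, hcount⟩ := Pool.Agent.TH936.AG.finalE hQ
  have hram : ∀ q : ℕ, q.Prime → q ≠ p → Unramified R q := by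
    intro q hq hne Q hQp hQ2
    have := hQ.qr.ded
    have h1 := hQ.qr.mem
    have abar := Pool.Agent.TH936.AC.a_bar Pool.Agent.W287.HK.h_basic R ω hQ
    obtain ⟨-, -, -, k4, -, -, k7, k8, k9, -, -, k12, -, -⟩ := abar
    have hQ0 : Q ≠ ⊥ := by
      intro h0
      rw [h0, Ideal.bot_mul] at hQ2
      have h3 : (q : R) = 0 := Ideal.span_singleton_eq_bot.1 hQ2.symm
      have h4 : ((q : R) : ℂ) = 0 := by rw [h3]; rfl
      rw [Subring.coe_natCast] at h4
      exact hq.ne_zero (by exact_mod_cast h4)
    -- the conjugate of `Q` is `Q`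
    have hb : Pool.Agent.TH936.AC.bar Q = Q := by
      have e1 : Pool.Agent.TH936.AC.bar Q * Pool.Agent.TH936.AC.bar Q = Q * Q := by
        rw [← k4, hQ2]
        exact k7 q
      have e2 : Pool.Agent.TH936.AC.bar Q ∣ Q * Q := by
        rw [← e1]
        exact Dvd.intro _ rfl
      have hpr : Prime Q := Ideal.prime_of_isPrime hQ0 hQp
      have e3 : Q ∣ Pool.Agent.TH936.AC.bar Q * Pool.Agent.TH936.AC.bar Q := by
        rw [e1]
        exact Dvd.intro _ rfl
      have e4 : Q ∣ Pool.Agent.TH936.AC.bar Q := (hpr.dvd_or_dvd e3).elim id id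
      have hb0 : Pool.Agent.TH936.AC.bar Q ≠ ⊥ := by
        intro h0
        rw [h0] at e1
        rw [Ideal.bot_mul] at e1
        have e5 := e1.symm
        rw [Ideal.mul_eq_bot] at e5
        exact hQ0 (e5.elim id id)
      have hpb : Prime (Pool.Agent.TH936.AC.bar Q) := Ideal.prime_of_isPrime hb0 (k12 Q hQp)
      have e6 : Pool.Agent.TH936.AC.bar Q ∣ Q := (hpb.dvd_or_dvd e2).elim id id
      exact dvd_antisymm e6 e4
    rcases hP.ram Q hQp hQ0 hb with ⟨l, hl, hQl⟩ | hnc
    · -- `Q = (l)`: then `(l ^ 2) = (q)`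
      have e1 : Ideal.span {((l * l : ℕ) : R)} = Ideal.span {(q : R)} := by
        rw [← hQ2, hQl, Ideal.span_singleton_mul_span_singleton]
        push_cast
        rfl
      have hnm : ∀ m : ℕ, Pool.Agent.W192.HK.nm (Ideal.span {(m : R)}) = (m : ℝ) ^ 2 := by
        intro m
        obtain ⟨-, -, -, -, b5, -⟩ := Pool.Agent.W287.HK.h_basic R ω hQ.qr
        rw [b5, Subring.coe_natCast, Complex.normSq_natCast]
        ring
      have e2 := congrArg Pool.Agent.W192.HK.nm e1
      rw [hnm, hnm] at e2
      have e3 : ((l * l : ℕ) : ℝ) = (q : ℝ) :=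
        (sq_eq_sq₀ (Nat.cast_nonneg _) (Nat.cast_nonneg _)).1 e2
      have e4 : l * l = q := by exact_mod_cast e3
      rw [← e4] at hq
      exact Nat.not_prime_mul hl.ne_one hl.ne_one hq
    · -- `Q = P`
      apply hnc
      have h2 : IsCoprime (Q * Q) P := by
        rw [hQ2]
        exact (Pool.Agent.TH936.AE.cop_of_ne hP hq hne).symm
      exact h2.of_mul_left_left
  refine ⟨L, fun q χ hχ => ⟨fun hu => ?_, fun d hd a ha => ?_⟩, fun ε hε M hM => ?_⟩
  · obtain ⟨h1, h2⟩ := (isRingClass_iff q χ).1 hχ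
    have hne : q ≠ p := by
      rintro rfl
      exact hu P hP.isPrime hP.sq
    have h3 := hL q χ hne h1 h2
    exact ⟨h3.diff, h3.sum⟩
  · obtain ⟨h1, h2⟩ := (isRingClass_iff q χ).1 hχ
    exact (isRingClass_iff q _).2 ⟨hpw R ω hQ.qr _ χ h1 d ⟨hd.pos, hd.pow, hd.least⟩ a ha,
      Pool.Agent.TH936.AC.rg_pw h2 a⟩
  · obtain ⟨q0, hq0⟩ := hcount M hM ε hε
    refine ⟨max q0 (p + 1), fun q χ hχ hq => ?_⟩
    obtain ⟨h1, h2⟩ := (isRingClass_iff q χ).1 hχ
    have hqp : (p : ℝ) + 1 ≤ q := (le_max_right _ _).trans hq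
    have hne : q ≠ p := by
      intro h
      rw [h] at hqp
      linarith
    refine ⟨hram q hχ.prime hne, fun d hd hdq M' k1 k2 k3 => ?_⟩
    exact hq0 q χ h1 h2 ((le_max_left _ _).trans hq) d ⟨hd.pos, hd.pow, hd.least⟩ hdq M' k1 k2 k3

end Pool.Agent.Results.MP_347b49_nt.RingClassCharacters
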