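import Pool.Agent.TH801.LG.Lin

/-! Sums of ordinates of zeros of zeta, with no hypothesis on the zeros.  Let `A_k` be arbitrary
sets of at least `η T log T` ordinates in `(0, T]`, let `b = |c_j|` be the second largest modulus
of the real coefficients (the largest is `|c_i|`) and let `0 < s ≤ b`.  Let `W` be a set of `m`
indices divided into at most `M` classes such that different coefficients of the same class differ
by at most `s` and by at least `K b / (T log T)`.  Then, uniformly in the target `y`, the number of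
tuples `x` with `|∑ c_k x_k - y| ≤ s / log T` is at most the trivial bound `∏ |A_k| / (T log T)`
times `K (s / (∑_{k ≠ i} c_k ^ 2) ^ (1/2) + exp (M - m / K))`. -/

set_option autoImplicit false

namespace Pool.Agent.Results.MP_347b49_nt.SumsOfOrdinates

open Finset

theorem result (η : ℝ) (hη : 0 < η) : ∃ K T₀ : ℝ, 0 < K ∧ ∀ T : ℝ, T₀ ≤ T →
    ∀ (n : ℕ) (c : Fin n → ℝ) (A : Fin n → Finset ℝ),
      (∀ k, ∀ γ ∈ A k, 0 < γ ∧ γ ≤ T ∧ ∃ ρ : ℂ, ρ.im = γ ∧ 0 < ρ.re ∧ ρ.re < 1 ∧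
        riemannZeta ρ = 0) →
      (∀ k, η * (T * Real.log T) ≤ (A k).card) →
      ∀ i j, i ≠ j → |c j| ≤ |c i| → (∀ k, k ≠ i → |c k| ≤ |c j|) → c j ≠ 0 →
      ∀ s : ℝ, 0 < s → s ≤ |c j| → ∀ (W : Finset (Fin n)) (M : ℕ) (σ : Fin n → ℕ),
      (∀ p ∈ W, σ p < M) →
      (∀ p ∈ W, ∀ q ∈ W, p ≠ q → σ p = σ q → |c p - c q| ≤ s ∧
        K * |c j| ≤ |c p - c q| * (T * Real.log T)) → ∀ y : ℝ,
      (((Fintype.piFinset A).filter (fun x : Fin n → ℝ => |∑ k, c k * x k - y| ≤
        s / Real.log T)).card : ℝ) ≤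
      K * (s / Real.sqrt (∑ k ∈ univ.erase i, c k ^ 2) +
        Real.exp (M - W.card / K)) * (∏ k, ((A k).card : ℝ)) / (T * Real.log T) :=
  Pool.Agent.TH801.LG.lin η hη

end Pool.Agent.Results.MP_347b49_nt.SumsOfOrdinates
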